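import Pool.Agent.H899R2.VP.Few
import Pool.Agent.H533R2.VO.Spec

set_option autoImplicit false

/-! The perfect set dichotomy is transferred along analytic correspondences. -/

namespace Pool.Agent.TH783.TR

open Set MeasureTheory
open Pool.Agent.H533R2.VO (RS RIso Dich VC lift)
open Pool.Agent.H899R2.VP (St Adj PIso BF IsoOn BF_iff bounding labels not_countable_cantor)

theorem analytic_preimage {X Y : Type} [TopologicalSpace X] [PolishSpace X] [TopologicalSpace Y]
    [T2Space Y] {s : Set Y} (hs : AnalyticSet s) {f : X → Y} (hf : Continuous f) :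
    AnalyticSet (f ⁻¹' s) := by
  rw [AnalyticSet] at hs
  rcases hs with rfl | ⟨g, hg, rfl⟩
  · rw [preimage_empty]
    exact analyticSet_empty
  · have h1 : f ⁻¹' (range g) = Prod.fst '' {p : X × (ℕ → ℕ) | f p.1 = g p.2} := by
      ext x
      constructor
      · rintro ⟨z, hz⟩
        exact ⟨(x, z), hz.symm, rfl⟩
      · rintro ⟨⟨x', z⟩, hz, rfl⟩
        exact ⟨z, hz.symm⟩
    rw [h1]
    refine AnalyticSet.image_of_continuous (IsClosed.analyticSet ?_) continuous_fst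
    exact isClosed_eq (hf.comp continuous_fst) (hg.comp continuous_snd)

theorem analytic_inter {X : Type} [TopologicalSpace X] [T2Space X] {s t : Set X}
    (hs : AnalyticSet s) (ht : AnalyticSet t) : AnalyticSet (s ∩ t) := by
  have h1 : s ∩ t = ⋂ b : Bool, (if b then s else t) := by
    ext x
    constructor
    · rintro ⟨h1, h2⟩
      rw [mem_iInter]
      intro b
      cases b
      · exact h2
      · exact h1
    · intro h
      rw [mem_iInter] at h
      exact ⟨h true, h false⟩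
  rw [h1]
  refine AnalyticSet.iInter fun b => ?_
  cases b
  · exact ht
  · exact hs

variable {b : ℕ → ℕ}

theorem lift_piso {x y : RS b} {p : Set (ℕ × ℕ)} : PIso (lift x) (lift y) p ↔
    (∀ u ∈ p, ∀ v ∈ p, (u.1 = v.1 ↔ u.2 = v.2)) ∧
    (∀ (i : ℕ) (t : Fin (b i) → ℕ × ℕ), (∀ k, t k ∈ p) →
      x i (fun k => (t k).1) = y i (fun k => (t k).2)) := by
  constructor
  · rintro ⟨h1, -, h3⟩
    exact ⟨h1, h3⟩
  · rintro ⟨h1, h3⟩
    exact ⟨h1, fun _ _ _ _ => rfl, h3⟩

theorem riso_iff {x y : RS b} : RIso x y ↔ IsoOn (lift x) (lift y) univ univ ∅ := by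
  constructor
  · rintro ⟨σ, hσ⟩
    refine ⟨{w | w.2 = σ w.1}, empty_subset _, fun _ _ => ⟨mem_univ _, mem_univ _⟩, ?_, ?_, ?_⟩
    · rw [lift_piso]
      refine ⟨?_, ?_⟩
      · intro u hu v hv
        change u.2 = σ u.1 at hu
        change v.2 = σ v.1 at hv
        rw [hu, hv, σ.injective.eq_iff]
      · intro i t ht
        rw [← hσ]
        congr 1
        funext k
        exact (ht k).symm
    · exact fun u _ => ⟨σ u, rfl⟩
    · exact fun u _ => ⟨σ.symm u, by simp⟩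
  · rintro ⟨q, -, -, hq1, hq2, hq3⟩
    rw [lift_piso] at hq1
    choose f hf using fun u : ℕ => hq2 u (mem_univ u)
    choose g hg using fun u : ℕ => hq3 u (mem_univ u)
    refine ⟨⟨f, g, fun u => ?_, fun u => ?_⟩, fun i v => ?_⟩
    · exact (hq1.1 _ (hg (f u)) _ (hf u)).2 rfl
    · exact (hq1.1 _ (hf (g u)) _ (hg u)).1 rfl
    · exact (hq1.2 i (fun k => (v k, f (v k))) (fun k => hf (v k))).symm

theorem riso_refl (x : RS b) : RIso x x := ⟨1, fun _ _ => rfl⟩

theorem riso_symm {x y : RS b} (h : RIso x y) : RIso y x := by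
  obtain ⟨σ, hσ⟩ := h
  refine ⟨σ⁻¹, fun i v => ?_⟩
  rw [← hσ]
  congr 1
  funext k
  simp

theorem riso_trans {x y z : RS b} (h : RIso x y) (h' : RIso y z) : RIso x z := by
  obtain ⟨σ, hσ⟩ := h
  obtain ⟨τ, hτ⟩ := h'
  refine ⟨τ * σ, fun i v => ?_⟩
  rw [← hσ, ← hτ]
  rfl

/-- If a class `K` has no perfect set of pairwise non-isomorphic members, the structures coded by
a continuous family of pairwise inequivalent points cannot be in `K`. -/
theorem no_perfect {Y : Type} [TopologicalSpace Y] [PolishSpace Y] (K : Set (RS b))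
    (hK : MeasurableSet K)
    (few : ¬ ∃ g : (ℕ → Bool) → RS b, Continuous g ∧ (∀ c, g c ∈ K) ∧
      ∀ c d, RIso (g c) (g d) → c = d)
    (ρ : Set (RS b × Y)) (hρ : AnalyticSet ρ) (g : (ℕ → Bool) → Y) (hg : Continuous g)
    (hgK : ∀ c, ∃ x ∈ K, (x, g c) ∈ ρ)
    (hinj : ∀ c d x x', (x, g c) ∈ ρ → (x', g d) ∈ ρ → RIso x x' → c = d) : False := by
  classical
  -- the class as a class of structures with an adjacency relation
  set K' : Set (St b) := {M | M.1 = (fun _ _ => false) ∧ M.2 ∈ K} with hK'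
  have hK'm : MeasurableSet K' := by
    refine MeasurableSet.inter ?_ (measurable_snd hK)
    exact (isClosed_eq continuous_fst continuous_const).measurableSet
  have hl : ∀ M ∈ K', M = lift M.2 := fun M hM => Prod.ext hM.1 rfl
  have few' : ¬ ∃ g : (ℕ → Bool) → St b, Continuous g ∧ (∀ c, g c ∈ K') ∧
      ∀ c d, IsoOn (g c) (g d) univ univ ∅ → c = d := by
    rintro ⟨h, h1, h2, h3⟩
    refine few ⟨fun c => (h c).2, continuous_snd.comp h1, fun c => (h2 c).2, fun c d hcd => ?_⟩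
    refine h3 c d ?_
    rw [hl _ (h2 c), hl _ (h2 d)]
    exact riso_iff.1 hcd
  have hlc : Continuous (lift : RS b → St b) := continuous_const.prodMk continuous_id
  -- bounds
  have hb : ∀ i : ℕ, ∃ β : Ordinal.{0}, β < Ordinal.omega 1 ∧ ∀ x x' : RS b, ∀ c d : ℕ → Bool,
      c i = true → d i = false → (x, g c) ∈ ρ → (x', g d) ∈ ρ →
      ¬ BF (lift x) (lift x') univ univ β ∅ := by
    intro i
    set A : Set (RS b × RS b) := (fun w : (RS b × RS b) × ((ℕ → Bool) × (ℕ → Bool)) => w.1) ''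
      {w | (w.2.1 i = true ∧ w.2.2 i = false) ∧ ((w.1.1, g w.2.1) ∈ ρ ∧ (w.1.2, g w.2.2) ∈ ρ)}
      with hA
    have hAan : AnalyticSet A := by
      have hP : PolishSpace ((RS b × RS b) × (ℕ → Bool) × (ℕ → Bool)) := {}
      refine AnalyticSet.image_of_continuous ?_ continuous_fst
      refine analytic_inter ?_ (analytic_inter ?_ ?_)
      · refine IsClosed.analyticSet ?_
        refine IsClosed.inter ?_ ?_
        · exact isClosed_eq ((continuous_apply i).comp (continuous_fst.comp continuous_snd))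
            continuous_const
        · exact isClosed_eq ((continuous_apply i).comp (continuous_snd.comp continuous_snd))
            continuous_const
      · exact analytic_preimage hρ (f := fun w : (RS b × RS b) × ((ℕ → Bool) × (ℕ → Bool)) =>
          (w.1.1, g w.2.1)) ((continuous_fst.comp continuous_fst).prodMk
            (hg.comp (continuous_fst.comp continuous_snd)))
      · exact analytic_preimage hρ (f := fun w : (RS b × RS b) × ((ℕ → Bool) × (ℕ → Bool)) =>
          (w.1.2, g w.2.2)) ((continuous_snd.comp continuous_fst).prodMk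
            (hg.comp (continuous_snd.comp continuous_snd)))
    have hmem : ∀ x x' : RS b, (x, x') ∈ A ↔ ∃ c d : ℕ → Bool, c i = true ∧ d i = false ∧
        (x, g c) ∈ ρ ∧ (x', g d) ∈ ρ := by
      intro x x'
      constructor
      · rintro ⟨⟨⟨y, y'⟩, c, d⟩, ⟨⟨h1, h2⟩, h3, h4⟩, h5⟩
        simp only [Prod.mk.injEq] at h5
        obtain ⟨rfl, rfl⟩ := h5
        exact ⟨c, d, h1, h2, h3, h4⟩
      · rintro ⟨c, d, h1, h2, h3, h4⟩
        exact ⟨⟨⟨x, x'⟩, c, d⟩, ⟨⟨h1, h2⟩, h3, h4⟩, rfl⟩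
    rw [AnalyticSet] at hAan
    rcases hAan with hAe | ⟨f, hf, hfr⟩
    · refine ⟨0, Ordinal.omega_pos 1, fun x x' c d h1 h2 h3 h4 _ => ?_⟩
      have : (x, x') ∈ A := (hmem x x').2 ⟨c, d, h1, h2, h3, h4⟩
      rw [hAe] at this
      exact this
    · by_contra hcon
      push Not at hcon
      obtain ⟨z, hz⟩ := bounding (fun z => (lift (f z).1, lift (f z).2))
        ((hlc.comp (continuous_fst.comp hf)).prodMk (hlc.comp (continuous_snd.comp hf))) ∅ (by
          intro β hβ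
          obtain ⟨x, x', c, d, h1, h2, h3, h4, h5⟩ := hcon β hβ
          have h6 : (x, x') ∈ range f := by
            rw [hfr]
            exact (hmem x x').2 ⟨c, d, h1, h2, h3, h4⟩
          obtain ⟨z, hz⟩ := h6
          exact ⟨z, by rw [hz]; exact h5⟩)
      have h7 : f z ∈ A := by rw [← hfr]; exact ⟨z, rfl⟩
      obtain ⟨c, d, h1, h2, h3, h4⟩ := (hmem (f z).1 (f z).2).1 h7
      have h8 := hinj c d _ _ h3 h4 (riso_iff.2 hz)
      rw [h8, h2] at h1
      exact Bool.false_ne_true h1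
  choose β hβ1 hβ2 using hb
  have hs : iSup β < Ordinal.omega 1 := Ordinal.iSup_lt_omega_one hβ1
  obtain ⟨lab, hlab⟩ := labels hK'm few' (iSup β) hs
  choose x hxK hxρ using hgK
  have hxK' : ∀ c, lift (x c) ∈ K' := fun c => ⟨rfl, hxK c⟩
  have hinj2 : Function.Injective fun c : ℕ → Bool => lab (lift (x c)) [] := by
    intro c d hcd
    by_contra hne
    obtain ⟨i, hi⟩ := Function.ne_iff.1 hne
    have h1 := hlab _ (hxK' c) _ (hxK' d) [] [] rfl hcd
    have h2 : BF (lift (x c)) (lift (x d)) univ univ (iSup β) ∅ := h1.subset (empty_subset _)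
    have h3 : BF (lift (x d)) (lift (x c)) univ univ (iSup β) ∅ := by
      have := h2.symm
      exact this.subset (empty_subset _)
    cases hc : c i <;> cases hd : d i
    · exact hi (hc.trans hd.symm)
    · exact hβ2 i _ _ d c hd hc (hxρ d) (hxρ c) (h3.mono (Ordinal.le_iSup β i))
    · exact hβ2 i _ _ c d hc hd (hxρ c) (hxρ d) (h2.mono (Ordinal.le_iSup β i))
    · exact hi (hc.trans hd.symm)
  exact not_countable_cantor hinj2.countable

/-- Transfer of the dichotomy. -/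
theorem transfer {Y : Type} [TopologicalSpace Y] [PolishSpace Y] [MeasurableSpace Y]
    [BorelSpace Y] (E : Y → Y → Prop) (D : Set Y) (hD : MeasurableSet D)
    (hDE : ∀ y ∈ D, ∀ y', E y y' → y' ∈ D)
    (vc : ∀ B : Set Y, B ⊆ D → MeasurableSet B → (∀ y ∈ B, ∀ y', E y y' → y' ∈ B) →
      (∃ f : ℕ → Y, ∀ y ∈ B, ∃ n, f n ∈ B ∧ E (f n) y) ∨
      (∃ g : (ℕ → Bool) → Y, Continuous g ∧ (∀ c, g c ∈ B) ∧ ∀ c d, E (g c) (g d) → c = d))
    (ρ : Set (RS b × Y)) (hρ : AnalyticSet ρ)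
    (ex : ∀ y ∈ D, ∃ x, (x, y) ∈ ρ)
    (iso : ∀ x x' y y', (x, y) ∈ ρ → (x', y') ∈ ρ → y ∈ D → y' ∈ D → (RIso x x' ↔ E y y'))
    (K : Set (RS b)) (hK : MeasurableSet K) (hKi : ∀ x y, RIso x y → (x ∈ K ↔ y ∈ K))
    (cov : ∀ x ∈ K, ∃ y ∈ D, (x, y) ∈ ρ) : Dich K := by
  have h1 : ∀ L : Set (RS b), MeasurableSet L →
      AnalyticSet (D ∩ Prod.snd '' (ρ ∩ {w : RS b × Y | w.1 ∈ L})) := by
    intro L hL
    have hP : PolishSpace (RS b × Y) := {}
    refine analytic_inter hD.analyticSet ?_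
    refine AnalyticSet.image_of_continuous ?_ continuous_snd
    refine analytic_inter hρ ?_
    exact (measurable_fst hL : MeasurableSet {w : RS b × Y | w.1 ∈ L}).analyticSet
  have hmem : ∀ (L : Set (RS b)) (y : Y), y ∈ D ∩ Prod.snd '' (ρ ∩ {w : RS b × Y | w.1 ∈ L}) ↔
      y ∈ D ∧ ∃ x ∈ L, (x, y) ∈ ρ := by
    intro L y
    constructor
    · rintro ⟨h2, ⟨x, y'⟩, ⟨h3, h4⟩, rfl⟩
      exact ⟨h2, x, h4, h3⟩
    · rintro ⟨h2, x, h3, h4⟩
      exact ⟨h2, (x, y), ⟨h4, h3⟩, rfl⟩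
  have hrefl : ∀ y ∈ D, E y y := by
    intro y hy
    obtain ⟨x, hx⟩ := ex y hy
    exact (iso x x y y hx hx hy hy).1 (riso_refl x)
  obtain ⟨u, hu1, hu2, hu3⟩ := (h1 K hK).measurablySeparable (h1 Kᶜ hK.compl) (by
    rw [Set.disjoint_left]
    intro y hy1 hy2
    obtain ⟨hy, x, hx, hxy⟩ := (hmem _ _).1 hy1
    obtain ⟨-, x', hx', hxy'⟩ := (hmem _ _).1 hy2
    have h2 := (iso x x' y y hxy hxy' hy hy).2 (hrefl y hy)
    exact hx' ((hKi _ _ h2).1 hx))
  have hB : ∀ y, y ∈ D ∩ u ↔ y ∈ D ∧ ∃ x ∈ K, (x, y) ∈ ρ := by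
    intro y
    constructor
    · rintro ⟨h2, h3⟩
      refine ⟨h2, ?_⟩
      obtain ⟨x, hx⟩ := ex y h2
      by_cases hxK : x ∈ K
      · exact ⟨x, hxK, hx⟩
      · exfalso
        exact Set.disjoint_left.1 hu2 ((hmem _ _).2 ⟨h2, x, hxK, hx⟩) h3
    · rintro ⟨h2, h3⟩
      exact ⟨h2, hu1 ((hmem _ _).2 ⟨h2, h3⟩)⟩
  rcases vc (D ∩ u) inter_subset_left (hD.inter hu3) (by
    intro y hy y' hyy'
    obtain ⟨h2, x, hx, hxy⟩ := (hB y).1 hy
    have h3 := hDE y h2 y' hyy'
    obtain ⟨x', hx'⟩ := ex y' h3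
    refine (hB y').2 ⟨h3, x', ?_, hx'⟩
    have h4 := (iso x x' y y' hxy hx' h2 h3).2 hyy'
    exact (hKi _ _ h4).1 hx) with ⟨f, hf⟩ | ⟨g, hg1, hg2, hg3⟩
  · left
    have hc : ∀ n, ∃ x : RS b, f n ∈ D ∩ u → (x, f n) ∈ ρ := by
      intro n
      by_cases hn : f n ∈ D ∩ u
      · obtain ⟨x, hx⟩ := ex (f n) hn.1
        exact ⟨x, fun _ => hx⟩
      · exact ⟨fun _ _ => false, fun h => absurd h hn⟩
    choose x hx using hc
    refine ⟨x, fun z hz => ?_⟩
    obtain ⟨y, hy, hzy⟩ := cov z hz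
    obtain ⟨n, hn1, hn2⟩ := hf y ((hB y).2 ⟨hy, z, hz, hzy⟩)
    exact ⟨n, (iso _ _ _ _ (hx n hn1) hzy hn1.1 hy).2 hn2⟩
  · right
    by_contra few
    refine no_perfect K hK few ρ hρ g hg1 (fun c => ((hB _).1 (hg2 c)).2) ?_
    intro c d z z' hz hz' hzz'
    exact hg3 c d ((iso _ _ _ _ hz hz' (hg2 c).1 (hg2 d).1).1 hzz')

end Pool.Agent.TH783.TR
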